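import Pool.Agent.H46.Cake.Core

/-!
# Menus and the conflict-free selection
-/

set_option linter.unusedSectionVars false

namespace Pool.Agent.H46.Cake

open MeasureTheory Set

variable {Ω : Type*} [MeasurableSpace Ω] (μ : Measure Ω) [IsFiniteMeasure μ]
variable {ι : Type*} [Fintype ι] [DecidableEq ι]

/-- The region open to agent `i` at scale `σ`: the points at which no other agent has a value
above all its levels of measure at least `σ`. -/
def Reg (F : ι → Ω → ℝ) (i : ι) (σ : ℝ) : Set Ω :=
  {x | ∀ l, l ≠ i → ∃ v, F l x ≤ v ∧ σ ≤ μ.real (F l ⁻¹' {v})}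

/-- `t` is the highest level of `f` of measure at least `σ`. -/
def IsTopLevel (f : Ω → ℝ) (σ t : ℝ) : Prop :=
  σ ≤ μ.real (f ⁻¹' {t}) ∧ ∀ v, σ ≤ μ.real (f ⁻¹' {v}) → v ≤ t

/-- Scale `σ` is available to agent `i`. -/
def Avail (ρ : ℝ) (F : ι → Ω → ℝ) (i : ι) (σ : ℝ) : Prop :=
  0 < σ ∧ (∃ l, l ≠ i ∧ ∃ v, μ.real (F l ⁻¹' {v}) = σ) ∧
    ∀ l, l ≠ i → ∃ t, IsTopLevel μ (F l) σ t ∧ ρ * σ ≤ μ.real (F l ⁻¹' {t} ∩ Reg μ F i σ)

/-- The budget at scale `σ`. -/
noncomputable def bud (ι : Type*) [Fintype ι] (ρ σ : ℝ) : ℝ := ρ * σ / (Fintype.card ι + 1)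

/-- The menu of agent `i`. -/
def Menu (ρ : ℝ) (F : ι → Ω → ℝ) (i : ι) : Set (Set Ω) :=
  {A | MeasurableSet A ∧ ∃ σ, Avail μ ρ F i σ ∧ A ⊆ Reg μ F i σ ∧ μ.real A ≤ bud ι ρ σ}

variable {μ}

theorem bud_pos {ρ σ : ℝ} (hρ : 0 < ρ) (hσ : 0 < σ) : 0 < bud ι ρ σ := by
  unfold bud; positivity

theorem bud_mul {ρ σ : ℝ} : bud ι ρ σ * (Fintype.card ι + 1) = ρ * σ := by
  unfold bud; field_simp

theorem bud_mono {ρ σ σ' : ℝ} (hρ : 0 < ρ) (h : σ ≤ σ') : bud ι ρ σ ≤ bud ι ρ σ' := by
  unfold bud; gcongr

theorem reg_measurable {F : ι → Ω → ℝ} (hF : ∀ i, Simple (F i)) (i : ι) (σ : ℝ) :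
    MeasurableSet (Reg μ F i σ) := by
  classical
  have : Reg μ F i σ = ⋂ l : ι, {x | l ≠ i → ∃ v, F l x ≤ v ∧ σ ≤ μ.real (F l ⁻¹' {v})} := by
    ext x; simp [Reg]
  rw [this]
  refine MeasurableSet.iInter (fun l => ?_)
  by_cases hl : l = i
  · have : {x | l ≠ i → ∃ v, F l x ≤ v ∧ σ ≤ μ.real (F l ⁻¹' {v})} = univ := by
      ext x; simp [hl]
    rw [this]; exact MeasurableSet.univ
  · have : {x | l ≠ i → ∃ v, F l x ≤ v ∧ σ ≤ μ.real (F l ⁻¹' {v})} =
        F l ⁻¹' (((hF l).fin.toFinset.filter (fun w => ∃ v, w ≤ v ∧ σ ≤ μ.real (F l ⁻¹' {v})) :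
          Finset ℝ) : Set ℝ) := by
      ext x
      simp only [ne_eq, hl, not_false_eq_true, forall_const, mem_ofPred_eq, Finset.coe_filter,
        Finite.mem_toFinset, mem_preimage, mem_range, exists_apply_eq_apply, true_and]
    rw [this]
    exact (hF l).meas (Finset.measurableSet _)

theorem reg_mono {F : ι → Ω → ℝ} {i : ι} {σ σ' : ℝ} (h : σ' ≤ σ) :
    Reg μ F i σ ⊆ Reg μ F i σ' := by
  intro x hx l hl
  obtain ⟨v, hv, hv'⟩ := hx l hl
  exact ⟨v, hv, h.trans hv'⟩

/-- The two cases for a pair of agents at scales `σi ≥ σj`: either a top piece of `i` misses the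
region of `j`, or the level of `j` which bounds the region of `i` is large inside the region
of `j`. -/
theorem pair_cases {ρ : ℝ} {F : ι → Ω → ℝ} (hF : ∀ i, Simple (F i)) {i j : ι}
    (hij : i ≠ j) {σi σj θi : ℝ} (hle : σj ≤ σi) (hai : Avail μ ρ F i σi)
    (hθi : Thr μ (F i) (Reg μ F i σi) (bud ι ρ σi) θi) {A : Set Ω}
    (hA : A ⊆ {x | x ∈ Reg μ F i σi ∧ θi ≤ F i x}) :
    Disjoint A (Reg μ F j σj) ∨
      ∃ t, (∀ x ∈ A, F j x ≤ t) ∧
        Fintype.card ι * bud ι ρ σi ≤ μ.real {x | x ∈ Reg μ F j σj ∧ F j x = t} := by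
  classical
  obtain ⟨hσ0, _, hav⟩ := hai
  obtain ⟨t, ht, hroom⟩ := hav j hij.symm
  set E := F j ⁻¹' {t} ∩ Reg μ F i σi with hE
  have hEm : MeasurableSet E := ((hF j).meas (measurableSet_singleton t)).inter (reg_measurable hF i σi)
  have hjm := reg_measurable (μ := μ) hF j σj
  have hsplit := measureReal_inter_add_sdiff (μ := μ) (s := E) (t := Reg μ F j σj) hjm
  -- points of `E` outside the region of `j`
  have hout : ∀ x, x ∈ Reg μ F i σi → x ∉ Reg μ F j σj →
      ∀ v, σj ≤ μ.real (F i ⁻¹' {v}) → v < F i x := by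
    intro x hx hx' v hv
    by_contra hcon
    rw [not_lt] at hcon
    apply hx'
    intro l hl
    by_cases hli : l = i
    · subst hli
      exact ⟨v, hcon, hv⟩
    · obtain ⟨w, hw, hw'⟩ := hx l hli
      exact ⟨w, hw, hle.trans hw'⟩
  by_cases hcase : bud ι ρ σi ≤ μ.real (E \ Reg μ F j σj)
  · left
    rw [Set.disjoint_left]
    intro y hyA hyj
    obtain ⟨hyi, hyθ⟩ := hA hyA
    -- `F i y ≤ v` for a level `v` of measure `≥ σj`
    obtain ⟨v, hv, hv'⟩ := hyj i hij
    have hsub : E \ Reg μ F j σj ⊆ {x | x ∈ Reg μ F i σi ∧ θi < F i x} := by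
      intro x hx
      refine ⟨hx.1.2, ?_⟩
      have := hout x hx.1.2 hx.2 v hv'
      linarith
    have h1 : μ.real (E \ Reg μ F j σj) ≤ μ.real {x | x ∈ Reg μ F i σi ∧ θi < F i x} :=
      measureReal_mono hsub
    have h2 := hθi.2.1
    linarith
  · right
    rw [not_le] at hcase
    refine ⟨t, ?_, ?_⟩
    · intro x hx
      obtain ⟨hxi, _⟩ := hA hx
      obtain ⟨v, hv, hv'⟩ := hxi j hij.symm
      exact hv.trans (ht.2 v hv')
    · have hsub : E ∩ Reg μ F j σj ⊆ {x | x ∈ Reg μ F j σj ∧ F j x = t} := by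
        intro x hx
        exact ⟨hx.2, hx.1.1⟩
      have h1 : μ.real (E ∩ Reg μ F j σj) ≤ μ.real {x | x ∈ Reg μ F j σj ∧ F j x = t} :=
        measureReal_mono hsub
      have h3 := bud_mul (ι := ι) (ρ := ρ) (σ := σi)
      have : (Fintype.card ι : ℝ) * bud ι ρ σi = ρ * σi - bud ι ρ σi := by linarith
      linarith

/-- Top pieces for all agents can be chosen pairwise disjoint. -/
theorem exists_alloc (hs : Splits μ) {ρ : ℝ} (hρ : 0 < ρ) {F : ι → Ω → ℝ}
    (hF : ∀ i, Simple (F i)) {σ θ : ι → ℝ} (hav : ∀ i, Avail μ ρ F i (σ i))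
    (hθ : ∀ i, Thr μ (F i) (Reg μ F i (σ i)) (bud ι ρ (σ i)) (θ i)) (s : Finset ι) :
    ∃ A : ι → Set Ω, (∀ i ∈ s, TopSet μ (F i) (Reg μ F i (σ i)) (bud ι ρ (σ i)) (θ i) (A i)) ∧
      ∀ i ∈ s, ∀ j ∈ s, i ≠ j → Disjoint (A i) (A j) := by
  classical
  induction s using Finset.induction_on_min_value σ with
  | empty => exact ⟨fun _ => ∅, by simp, by simp⟩
  | insert j s hj hmin ih =>
    obtain ⟨A, hA, hdis⟩ := ih
    set Rj := Reg μ F j (σ j) with hRj
    have hRjm : MeasurableSet Rj := reg_measurable hF j (σ j)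
    set δ := bud ι ρ (σ j) with hδ
    obtain ⟨hθ0, hθ1, hθ2⟩ := hθ j
    set H := {x | x ∈ Rj ∧ θ j < F j x} with hH
    set Q := {x | x ∈ Rj ∧ F j x = θ j} with hQ
    have hHm : MeasurableSet H := hRjm.inter (measurableSet_lt measurable_const (hF j).meas)
    have hQm : MeasurableSet Q := hRjm.inter (measurableSet_eq_fun (hF j).meas measurable_const)
    have hun : {x | x ∈ Rj ∧ θ j ≤ F j x} = H ∪ Q := by
      ext x
      simp only [hH, hQ, mem_ofPred_eq, mem_union]
      constructor
      · rintro ⟨h, h'⟩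
        rcases lt_or_eq_of_le h' with h'' | h''
        · exact Or.inl ⟨h, h''⟩
        · exact Or.inr ⟨h, h''.symm⟩
      · rintro (⟨h, h'⟩ | ⟨h, h'⟩)
        · exact ⟨h, h'.le⟩
        · exact ⟨h, h'.ge⟩
    have hcardpos : (1 : ℝ) ≤ Fintype.card ι := by
      exact_mod_cast Fintype.card_pos_iff.2 ⟨j⟩
    -- the facts about earlier agents
    have hearly : ∀ i ∈ s, Disjoint (A i) H ∧
        (Disjoint (A i) Q ∨ (Fintype.card ι * μ.real (A i) ≤ μ.real Q ∧ δ ≤ μ.real (A i))) := by
      intro i hi
      have hij : i ≠ j := fun h => hj (h ▸ hi)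
      obtain ⟨hAm, hA1, hA2, hA3⟩ := hA i hi
      have hbud : δ ≤ bud ι ρ (σ i) := bud_mono hρ (hmin i hi)
      rcases pair_cases hF hij (hmin i hi) (hav i) (hθ i) hA2 with h | ⟨t, ht, hroom⟩
      · refine ⟨h.mono_right (fun x hx => hx.1), Or.inl (h.mono_right (fun x hx => hx.1))⟩
      · -- `t ≤ θ j`
        have hpos : 0 < bud ι ρ (σ i) := bud_pos hρ (hav i).1
        have hroom' : δ ≤ μ.real {x | x ∈ Rj ∧ F j x = t} := by
          refine le_trans ?_ hroom
          nlinarith
        have htθ : t ≤ θ j := by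
          by_contra hcon
          rw [not_le] at hcon
          have hsub : {x | x ∈ Rj ∧ F j x = t} ⊆ H := by
            intro x hx
            exact ⟨hx.1, by rw [hx.2]; exact hcon⟩
          have : μ.real {x | x ∈ Rj ∧ F j x = t} ≤ μ.real H := measureReal_mono hsub
          linarith
        refine ⟨?_, ?_⟩
        · rw [Set.disjoint_left]
          intro x hx hx'
          have h1 := ht x hx
          have h2 := hx'.2
          linarith
        · rcases lt_or_eq_of_le htθ with h | h
          · left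
            rw [Set.disjoint_left]
            intro x hx hx'
            have h1 := ht x hx
            have h2 := hx'.2
            linarith
          · right
            rw [hA3]
            refine ⟨?_, hbud⟩
            rw [h] at hroom
            exact hroom
    -- the earlier agents meeting `Q`
    set s' := s.filter (fun i => ¬ Disjoint (A i) Q) with hs'
    set W : Set Ω := ⋃ i ∈ s', A i with hW
    have hWm : MeasurableSet W := by
      refine Finset.measurableSet_biUnion _ (fun i hi => ?_)
      exact (hA i (Finset.mem_filter.1 hi).1).1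
    have hneed : δ - μ.real H ≤ μ.real (Q \ W) := by
      rcases s'.eq_empty_or_nonempty with hemp | ⟨i0, hi0⟩
      · have : W = ∅ := by simp [hW, hemp]
        rw [this, sdiff_empty]
        have := measureReal_union_le (μ := μ) H Q
        rw [← hun] at this
        linarith
      · have hWle : μ.real W ≤ ∑ i ∈ s', μ.real (A i) := measureReal_biUnion_finset_le _ _
        have hterm : ∀ i ∈ s', μ.real (A i) ≤ μ.real Q / Fintype.card ι := by
          intro i hi
          obtain ⟨hi1, hi2⟩ := Finset.mem_filter.1 hi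
          rcases (hearly i hi1).2 with h | h
          · exact absurd h hi2
          · rw [le_div_iff₀ (by linarith)]
            linarith [h.1]
        have hsum : ∑ i ∈ s', μ.real (A i) ≤ s'.card * (μ.real Q / Fintype.card ι) := by
          have := Finset.sum_le_card_nsmul s' _ _ hterm
          rwa [nsmul_eq_mul] at this
        have hcard : (s'.card : ℝ) ≤ Fintype.card ι - 1 := by
          have h1 : s'.card + 1 ≤ Fintype.card ι := by
            have h2 : (insert j s').card ≤ Fintype.card ι := Finset.card_le_univ _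
            rw [Finset.card_insert_of_notMem] at h2
            · exact h2
            · intro h
              exact hj (Finset.mem_filter.1 h).1
          have : (s'.card : ℝ) + 1 ≤ Fintype.card ι := by exact_mod_cast h1
          linarith
        have hQ0 : 0 ≤ μ.real Q := measureReal_nonneg
        have hq : 0 ≤ μ.real Q / Fintype.card ι := by positivity
        have h5 : μ.real W ≤ (Fintype.card ι - 1) * (μ.real Q / Fintype.card ι) :=
          hWle.trans (hsum.trans (mul_le_mul_of_nonneg_right hcard hq))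
        have h6 : (Fintype.card ι - 1) * (μ.real Q / Fintype.card ι) =
            μ.real Q - μ.real Q / Fintype.card ι := by
          field_simp
        have h7 : μ.real Q ≤ μ.real (Q \ W) + μ.real W := by
          have h8 := measureReal_inter_add_sdiff (μ := μ) (s := Q) (t := W) hWm
          have h9 : μ.real (Q ∩ W) ≤ μ.real W := measureReal_mono inter_subset_right (measure_ne_top μ W)
          linarith
        obtain ⟨hi1, hi2⟩ := Finset.mem_filter.1 hi0
        rcases (hearly i0 hi1).2 with h | h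
        · exact absurd h hi2
        · have h10 : δ ≤ μ.real Q / Fintype.card ι := h.2.trans (hterm i0 hi0)
          have h11 : 0 ≤ μ.real H := measureReal_nonneg
          linarith
    obtain ⟨G, hG, hGm, hGv⟩ := hs _ (hQm.diff hWm) _ (by linarith) hneed
    have hGH : Disjoint H G := by
      rw [Set.disjoint_left]
      rintro x ⟨_, hx⟩ hx'
      have := (hG hx').1.2
      linarith
    have hnew : TopSet μ (F j) (Reg μ F j (σ j)) (bud ι ρ (σ j)) (θ j) (H ∪ G) := by
      refine ⟨hHm.union hGm, subset_union_left, ?_, ?_⟩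
      · change H ∪ G ⊆ {x | x ∈ Rj ∧ θ j ≤ F j x}
        rw [hun]
        exact union_subset_union_right _ (hG.trans sdiff_subset)
      · rw [measureReal_union hGH hGm, hGv]; ring
    have hdisj : ∀ i ∈ s, Disjoint (A i) (H ∪ G) := by
      intro i hi
      rw [Set.disjoint_union_right]
      refine ⟨(hearly i hi).1, ?_⟩
      by_cases hd : Disjoint (A i) Q
      · exact hd.mono_right (hG.trans sdiff_subset)
      · rw [Set.disjoint_left]
        intro x hx hx'
        apply (hG hx').2
        rw [hW]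
        simp only [mem_iUnion, exists_prop]
        exact ⟨i, Finset.mem_filter.2 ⟨hi, hd⟩, hx⟩
    refine ⟨Function.update A j (H ∪ G), ?_, ?_⟩
    · intro i hi
      rcases Finset.mem_insert.1 hi with h | h
      · subst h
        rw [Function.update_self]
        exact hnew
      · have hne : i ≠ j := fun h' => hj (h' ▸ h)
        rw [Function.update_of_ne hne]
        exact hA i h
    · intro i hi k hk hik
      rcases Finset.mem_insert.1 hi with h | h
      · rcases Finset.mem_insert.1 hk with h' | h'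
        · exact absurd (h.trans h'.symm) hik
        · subst h
          have hne : k ≠ i := hik.symm
          rw [Function.update_self, Function.update_of_ne hne]
          exact (hdisj k h').symm
      · have hne : i ≠ j := fun h' => hj (h' ▸ h)
        rcases Finset.mem_insert.1 hk with h' | h'
        · subst h'
          rw [Function.update_self, Function.update_of_ne hne]
          exact hdisj i h
        · have hne' : k ≠ j := fun h'' => hj (h'' ▸ h')
          rw [Function.update_of_ne hne, Function.update_of_ne hne']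
          exact hdis i h k h' hik

end Pool.Agent.H46.Cake
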