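import Mathlib

/-!
# Truthful cake cutting with a positive guarantee: the core construction

Everything in this file is about a finite measure space `Ω` (the cake) in which every measurable
set contains measurable subsets of every smaller measure.
-/

set_option linter.unusedSectionVars false

namespace Pool.Agent.H46.Cake

open MeasureTheory Set

/-- The cake `[0,1]`: every measurable set contains measurable subsets of each smaller measure. -/
theorem split_unit (G : Set unitInterval) (hG : MeasurableSet G) (a : ℝ) (h0 : 0 ≤ a)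
    (ha : a ≤ (volume : Measure unitInterval).real G) :
    ∃ G' ⊆ G, MeasurableSet G' ∧ (volume : Measure unitInterval).real G' = a := by
  classical
  set g : unitInterval → ℝ := fun t => (volume : Measure unitInterval).real (G ∩ Iic t) with hg
  have key : ∀ s t : unitInterval, s ≤ t → g s ≤ g t ∧ g t ≤ g s + ((t : ℝ) - s) := by
    intro s t hst
    refine ⟨measureReal_mono (inter_subset_inter_right _ (Iic_subset_Iic.2 hst)), ?_⟩
    have h1 : G ∩ Iic t ⊆ (G ∩ Iic s) ∪ Ioc s t := by
      intro x hx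
      rcases le_or_gt x s with h | h
      · exact Or.inl ⟨hx.1, h⟩
      · exact Or.inr ⟨h, hx.2⟩
    have h2 : (volume : Measure unitInterval).real (Ioc s t) = (t : ℝ) - s := by
      rw [measureReal_def, unitInterval.volume_Ioc, ENNReal.toReal_ofReal]
      have : (s : ℝ) ≤ t := hst
      linarith
    calc g t ≤ (volume : Measure unitInterval).real ((G ∩ Iic s) ∪ Ioc s t) := measureReal_mono h1
      _ ≤ g s + (volume : Measure unitInterval).real (Ioc s t) := measureReal_union_le _ _
      _ = _ := by rw [h2]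
  have hcont : Continuous g := by
    have hL : LipschitzWith 1 g := by
      refine LipschitzWith.of_dist_le_mul (fun s t => ?_)
      rw [NNReal.coe_one, one_mul, Real.dist_eq, Subtype.dist_eq, Real.dist_eq]
      rcases le_total s t with h | h
      · obtain ⟨h1, h2⟩ := key s t h
        have : (s : ℝ) ≤ t := h
        rw [abs_le]
        constructor
        · rw [abs_of_nonpos (by linarith)]; linarith
        · rw [abs_of_nonpos (by linarith)]; linarith
      · obtain ⟨h1, h2⟩ := key t s h
        have : (t : ℝ) ≤ s := h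
        rw [abs_le]
        constructor
        · rw [abs_of_nonneg (by linarith)]; linarith
        · rw [abs_of_nonneg (by linarith)]; linarith
    exact hL.continuous
  have h00 : g 0 = 0 := by
    have h1 : g 0 ≤ (volume : Measure unitInterval).real (Iic 0) :=
      measureReal_mono inter_subset_right
    have h2 : (volume : Measure unitInterval).real (Iic 0) = 0 := by
      rw [measureReal_def, unitInterval.volume_Iic]; simp
    have h3 : 0 ≤ g 0 := measureReal_nonneg
    linarith
  have h11 : g 1 = (volume : Measure unitInterval).real G := by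
    have : G ∩ Iic (1 : unitInterval) = G := by
      ext x
      simp only [mem_inter_iff, mem_Iic, and_iff_left_iff_imp]
      intro _
      exact unitInterval.le_one'
    rw [hg]; simp only [this]
  have hmem : a ∈ range g := mem_range_of_exists_le_of_exists_ge hcont ⟨0, h00.le.trans h0⟩
    ⟨1, ha.trans h11.ge⟩
  obtain ⟨t, ht⟩ := hmem
  exact ⟨G ∩ Iic t, inter_subset_left, hG.inter measurableSet_Iic, ht⟩

variable {Ω : Type*} [MeasurableSpace Ω] (μ : Measure Ω) [IsFiniteMeasure μ]

/-- Every measurable set has measurable subsets of each smaller measure. -/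
def Splits : Prop :=
  ∀ G, MeasurableSet G → ∀ a, 0 ≤ a → a ≤ μ.real G → ∃ G' ⊆ G, MeasurableSet G' ∧ μ.real G' = a

/-- Nonnegative measurable functions with finitely many values. -/
structure Simple (f : Ω → ℝ) : Prop where
  meas : Measurable f
  nonneg : ∀ x, 0 ≤ f x
  fin : (range f).Finite

variable {μ} in
theorem Simple.integrable {f : Ω → ℝ} (hf : Simple f) : Integrable f μ := by
  obtain ⟨C, hC⟩ := hf.fin.bddAbove
  refine Integrable.of_bound hf.meas.aestronglyMeasurable C (Filter.Eventually.of_forall ?_)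
  intro x
  rw [Real.norm_of_nonneg (hf.nonneg x)]
  exact hC (mem_range_self x)

/-- `θ` is a threshold: the part of `U` with `f > θ` has measure `< δ`, the part with `f ≥ θ` has
measure `≥ δ`. -/
def Thr (f : Ω → ℝ) (U : Set Ω) (δ θ : ℝ) : Prop :=
  0 ≤ θ ∧ μ.real {x | x ∈ U ∧ θ < f x} < δ ∧ δ ≤ μ.real {x | x ∈ U ∧ θ ≤ f x}

/-- `A` is a top piece of `U` of measure `δ`. -/
def TopSet (f : Ω → ℝ) (U : Set Ω) (δ θ : ℝ) (A : Set Ω) : Prop :=
  MeasurableSet A ∧ {x | x ∈ U ∧ θ < f x} ⊆ A ∧ A ⊆ {x | x ∈ U ∧ θ ≤ f x} ∧ μ.real A = δ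

theorem exists_thr {f : Ω → ℝ} (hf : Simple f) {U : Set Ω} {δ : ℝ}
    (hδ : 0 < δ) (hU : δ ≤ μ.real U) : ∃ θ, Thr μ f U δ θ := by
  classical
  have hne : U.Nonempty := nonempty_of_measureReal_ne_zero (by linarith : μ.real U ≠ 0)
  obtain ⟨x0, hx0⟩ := hne
  -- the minimal value
  have hSfin : {v ∈ range f | δ ≤ μ.real {x | x ∈ U ∧ v ≤ f x}}.Finite := hf.fin.subset (sep_subset _ _)
  obtain ⟨v0, hv0, hmin⟩ := Set.exists_min_image (range f) id hf.fin ⟨f x0, mem_range_self x0⟩
  have hSne : {v ∈ range f | δ ≤ μ.real {x | x ∈ U ∧ v ≤ f x}}.Nonempty := by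
    refine ⟨v0, hv0, ?_⟩
    have : {x | x ∈ U ∧ v0 ≤ f x} = U := by
      ext x
      simp only [mem_ofPred_eq, and_iff_left_iff_imp]
      intro _
      exact hmin _ (mem_range_self x)
    rw [this]; exact hU
  obtain ⟨θ, ⟨hθr, hθ⟩, hmax⟩ := Set.exists_max_image _ id hSfin hSne
  refine ⟨θ, ?_, ?_, hθ⟩
  · obtain ⟨x, rfl⟩ := hθr
    exact hf.nonneg x
  · by_contra hcon
    rw [not_lt] at hcon
    have hne2 : {x | x ∈ U ∧ θ < f x}.Nonempty :=
      nonempty_of_measureReal_ne_zero (by linarith : μ.real {x | x ∈ U ∧ θ < f x} ≠ 0)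
    obtain ⟨x1, _, hx1⟩ := hne2
    obtain ⟨v1, ⟨hv1r, hv1⟩, hmin1⟩ := Set.exists_min_image {v ∈ range f | θ < v} id
      (hf.fin.subset (sep_subset _ _)) ⟨f x1, mem_range_self x1, hx1⟩
    have heq : {x | x ∈ U ∧ v1 ≤ f x} = {x | x ∈ U ∧ θ < f x} := by
      ext x
      simp only [mem_ofPred_eq, and_congr_right_iff]
      intro _
      constructor
      · intro h; exact lt_of_lt_of_le hv1 h
      · intro h; exact hmin1 _ ⟨mem_range_self x, h⟩
    have := hmax v1 ⟨hv1r, by rw [heq]; exact hcon⟩
    simp only [id_eq] at this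
    linarith

/-- A top piece maximises the value among the subsets of `U` of measure at most `δ`. -/
theorem TopSet.optimal {f : Ω → ℝ} (hf : Simple f) {U A : Set Ω} {δ θ : ℝ} (hθ : 0 ≤ θ)
    (hA : TopSet μ f U δ θ A) {A' : Set Ω} (hm : MeasurableSet A') (hsub : A' ⊆ U)
    (hle : μ.real A' ≤ δ) : ∫ x in A', f x ∂μ ≤ ∫ x in A, f x ∂μ := by
  obtain ⟨hAm, h1, h2, h3⟩ := hA
  have hint := hf.integrable (μ := μ)
  have e1 := integral_inter_add_sdiff (μ := μ) (s := A') (t := A) (f := f) hAm hint.integrableOn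
  have e2 := integral_inter_add_sdiff (μ := μ) (s := A) (t := A') (f := f) hm hint.integrableOn
  have e3 := measureReal_inter_add_sdiff (μ := μ) (s := A') (t := A) hAm
  have e4 := measureReal_inter_add_sdiff (μ := μ) (s := A) (t := A') hm
  have i1 : ∫ x in A' \ A, f x ∂μ ≤ θ * μ.real (A' \ A) := by
    have := setIntegral_mono_on (μ := μ) (s := A' \ A) (f := f) (g := fun _ => θ)
      hint.integrableOn (integrableOn_const (by finiteness)) (hm.diff hAm) (by
        intro x hx
        by_contra hcon
        exact hx.2 (h1 ⟨hsub hx.1, not_le.1 hcon⟩))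
    rw [setIntegral_const, smul_eq_mul] at this
    linarith
  have i2 : θ * μ.real (A \ A') ≤ ∫ x in A \ A', f x ∂μ := by
    have := setIntegral_mono_on (μ := μ) (s := A \ A') (g := f) (f := fun _ => θ)
      (integrableOn_const (by finiteness)) hint.integrableOn (hAm.diff hm) (by
        intro x hx
        exact (h2 hx.1).2)
    rw [setIntegral_const, smul_eq_mul] at this
    linarith
  rw [inter_comm] at e1 e3
  have : θ * μ.real (A' \ A) ≤ θ * μ.real (A \ A') := by
    apply mul_le_mul_of_nonneg_left _ hθ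
    linarith
  linarith

/-- A top piece of `U` has at least average density. -/
theorem TopSet.average {f : Ω → ℝ} (hf : Simple f) {U A : Set Ω} {δ θ : ℝ}
    (hU : MeasurableSet U) (hA : TopSet μ f U δ θ A) :
    δ * ∫ x in U, f x ∂μ ≤ μ.real U * ∫ x in A, f x ∂μ := by
  obtain ⟨hAm, h1, h2, h3⟩ := hA
  have hint := hf.integrable (μ := μ)
  have hAU : A ⊆ U := fun x hx => (h2 hx).1
  have e1 := integral_inter_add_sdiff (μ := μ) (s := U) (t := A) (f := f) hAm hint.integrableOn
  have e3 := measureReal_inter_add_sdiff (μ := μ) (s := U) (t := A) hAm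
  rw [inter_eq_right.2 hAU] at e1 e3
  have i1 : ∫ x in U \ A, f x ∂μ ≤ θ * μ.real (U \ A) := by
    have := setIntegral_mono_on (μ := μ) (s := U \ A) (f := f) (g := fun _ => θ)
      hint.integrableOn (integrableOn_const (by finiteness)) (hU.diff hAm) (by
        intro x hx
        by_contra hcon
        exact hx.2 (h1 ⟨hx.1, not_le.1 hcon⟩))
    rw [setIntegral_const, smul_eq_mul] at this
    linarith
  have i2 : θ * δ ≤ ∫ x in A, f x ∂μ := by
    have := setIntegral_mono_on (μ := μ) (s := A) (g := f) (f := fun _ => θ)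
      (integrableOn_const (by finiteness)) hint.integrableOn hAm (by
        intro x hx
        exact (h2 hx).2)
    rw [setIntegral_const, smul_eq_mul, h3] at this
    linarith
  have hδ : 0 ≤ δ := by rw [← h3]; exact measureReal_nonneg
  have hb : 0 ≤ μ.real (U \ A) := measureReal_nonneg
  rw [← e1, ← e3, h3]
  nlinarith [mul_le_mul_of_nonneg_left i1 hδ, mul_le_mul_of_nonneg_right i2 hb]

/-- Top pieces avoiding nothing exist. -/
theorem exists_topSet (hs : Splits μ) {f : Ω → ℝ} (hf : Simple f) {U : Set Ω} {δ θ : ℝ}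
    (hU : MeasurableSet U) (hθ : Thr μ f U δ θ) : ∃ A, TopSet μ f U δ θ A := by
  obtain ⟨h0, h1, h2⟩ := hθ
  have hm1 : MeasurableSet {x | x ∈ U ∧ θ < f x} := hU.inter (measurableSet_lt measurable_const hf.meas)
  have hm2 : MeasurableSet {x | x ∈ U ∧ f x = θ} :=
    hU.inter (measurableSet_eq_fun hf.meas measurable_const)
  have hun : {x | x ∈ U ∧ θ ≤ f x} = {x | x ∈ U ∧ θ < f x} ∪ {x | x ∈ U ∧ f x = θ} := by
    ext x
    simp only [mem_ofPred_eq, mem_union]
    constructor
    · rintro ⟨h, h'⟩
      rcases lt_or_eq_of_le h' with h'' | h''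
      · exact Or.inl ⟨h, h''⟩
      · exact Or.inr ⟨h, h''.symm⟩
    · rintro (⟨h, h'⟩ | ⟨h, h'⟩)
      · exact ⟨h, h'.le⟩
      · exact ⟨h, h'.ge⟩
  have hroom : δ - μ.real {x | x ∈ U ∧ θ < f x} ≤ μ.real {x | x ∈ U ∧ f x = θ} := by
    have := measureReal_union_le (μ := μ) {x | x ∈ U ∧ θ < f x} {x | x ∈ U ∧ f x = θ}
    rw [← hun] at this
    linarith
  obtain ⟨G, hG, hGm, hGv⟩ := hs _ hm2 _ (by linarith) hroom
  refine ⟨{x | x ∈ U ∧ θ < f x} ∪ G, hm1.union hGm, subset_union_left, ?_, ?_⟩
  · rw [hun]; exact union_subset_union_right _ hG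
  · rw [measureReal_union _ hGm, hGv]
    · ring
    · rw [Set.disjoint_left]
      rintro x ⟨_, hx⟩ hx'
      have := (hG hx').2
      linarith

end Pool.Agent.H46.Cake
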