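import Pool.Agent.H46.Cake.Select

/-!
# The value guaranteed by the menus
-/

set_option linter.unusedSectionVars false

namespace Pool.Agent.H46.Cake

open MeasureTheory Set

variable {Ω : Type*} [MeasurableSpace Ω] {μ : Measure Ω} [IsFiniteMeasure μ]
variable {ι : Type*} [Fintype ι] [DecidableEq ι]

/-- The joint level cell of the other agents. -/
def Cell (F : ι → Ω → ℝ) (i : ι) (c : ι → ℝ) : Set Ω := {x | ∀ l, l ≠ i → F l x = c l}

theorem cell_measurable {F : ι → Ω → ℝ} (hF : ∀ i, Simple (F i)) (i : ι) (c : ι → ℝ) :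
    MeasurableSet (Cell F i c) := by
  have : Cell F i c = ⋂ l : ι, ⋂ (_ : l ≠ i), F l ⁻¹' {c l} := by
    ext x; simp [Cell]
  rw [this]
  exact MeasurableSet.iInter (fun l => MeasurableSet.iInter
    (fun _ => (hF l).meas (measurableSet_singleton _)))

/-- Some joint level cell of the other agents carries a large part of the value of `i`. -/
theorem exists_cell {F : ι → Ω → ℝ} (hF : ∀ i, Simple (F i)) (i : ι)
    (hpos : 0 < ∫ x, F i x ∂μ) :
    ∃ c : ι → ℝ, 0 < μ.real (Cell F i c) ∧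
      ∫ x, F i x ∂μ ≤ ((∏ l ∈ Finset.univ.erase i, (range (F l)).ncard : ℕ) : ℝ) *
        ∫ x in Cell F i c, F i x ∂μ := by
  classical
  set S : Finset (ι → ℝ) := Fintype.piFinset
    (fun l => if l = i then {0} else (hF l).fin.toFinset) with hS
  have hcard : S.card = ∏ l ∈ Finset.univ.erase i, (range (F l)).ncard := by
    rw [hS, Fintype.card_piFinset, ← Finset.mul_prod_erase _ _ (Finset.mem_univ i)]
    simp only [if_true, Finset.card_singleton, one_mul]
    refine Finset.prod_congr rfl (fun l hl => ?_)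
    rw [if_neg (Finset.mem_erase.1 hl).1, Set.ncard_eq_toFinset_card _ (hF l).fin]
  have hun : (⋃ c ∈ S, Cell F i c) = univ := by
    ext x
    simp only [mem_iUnion, exists_prop, mem_univ, iff_true]
    refine ⟨fun l => if l = i then 0 else F l x, ?_, ?_⟩
    · rw [hS, Fintype.mem_piFinset]
      intro l
      by_cases hl : l = i
      · simp [hl]
      · simp [hl]
    · intro l hl
      simp [hl]
  have hdis : Set.Pairwise (↑S) (Function.onFun Disjoint (Cell F i)) := by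
    intro c hc c' hc' hne
    rw [Function.onFun, Set.disjoint_left]
    intro x hx hx'
    apply hne
    funext l
    rw [Finset.mem_coe, hS, Fintype.mem_piFinset] at hc hc'
    by_cases hl : l = i
    · have h1 := hc l
      have h2 := hc' l
      rw [if_pos hl, Finset.mem_singleton] at h1 h2
      rw [h1, h2]
    · rw [← hx l hl, ← hx' l hl]
  have hsum : ∫ x, F i x ∂μ = ∑ c ∈ S, ∫ x in Cell F i c, F i x ∂μ := by
    rw [← integral_biUnion_finset S (fun c _ => cell_measurable hF i c) hdis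
      (fun c _ => ((hF i).integrable).integrableOn), hun, setIntegral_univ]
  have hSne : S.Nonempty := by
    by_contra hcon
    rw [Finset.not_nonempty_iff_eq_empty] at hcon
    rw [hsum, hcon, Finset.sum_empty] at hpos
    exact lt_irrefl _ hpos
  obtain ⟨c, _, hmax⟩ := Finset.exists_max_image S (fun c => ∫ x in Cell F i c, F i x ∂μ) hSne
  have hle : ∫ x, F i x ∂μ ≤ S.card * ∫ x in Cell F i c, F i x ∂μ := by
    rw [hsum, ← nsmul_eq_mul]
    exact Finset.sum_le_card_nsmul _ _ _ hmax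
  refine ⟨c, ?_, by rw [← hcard]; exact hle⟩
  rcases (measureReal_nonneg (μ := μ) (s := Cell F i c)).eq_or_lt with h | h
  · exfalso
    have h0 : μ (Cell F i c) = 0 := by
      rw [← measureReal_eq_zero_iff (measure_ne_top μ _)]; exact h.symm
    rw [setIntegral_measure_zero _ h0, mul_zero] at hle
    linarith
  · exact h

theorem cell_subset_reg {F : ι → Ω → ℝ} {i : ι} {c : ι → ℝ} {σ : ℝ}
    (hgood : ∀ l, l ≠ i → ∃ v, c l ≤ v ∧ σ ≤ μ.real (F l ⁻¹' {v})) :
    Cell F i c ⊆ Reg μ F i σ := by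
  intro x hx l hl
  obtain ⟨v, hv, hv'⟩ := hgood l hl
  exact ⟨v, by rw [hx l hl]; exact hv, hv'⟩

/-- The constant of the general guarantee (its inverse). -/
noncomputable def Rconst (n K : ℕ) : ℝ :=
  2 * (n + 1) * (K : ℝ) ^ (n - 1) * (2 * n * K : ℝ) ^ ((n - 1) * K)

/-- The guarantee of the menus for any number of agents. -/
theorem guarantee (hs : Splits μ) {F : ι → Ω → ℝ} (hF : ∀ i, Simple (F i)) (i : ι) {K : ℕ}
    (hK : ∀ l, l ≠ i → (range (F l)).ncard ≤ K) (hcard : 2 ≤ Fintype.card ι)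
    (hpos : 0 < ∫ x, F i x ∂μ) :
    ∃ A ∈ Menu μ (1/2) F i,
      ∫ x, F i x ∂μ ≤ Rconst (Fintype.card ι) K * ∫ x in A, F i x ∂μ := by
  classical
  set n := Fintype.card ι with hn
  obtain ⟨c, hc0, hc⟩ := exists_cell hF i hpos
  set C := Cell F i c with hC
  -- another agent
  have hex : ∃ l0 : ι, l0 ≠ i := by
    by_contra hcon
    push Not at hcon
    have : Fintype.card ι ≤ 1 := Fintype.card_le_one_iff.2 (fun a b => by rw [hcon a, hcon b])
    omega
  obtain ⟨l0, hl0⟩ := hex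
  -- the starting scale
  obtain ⟨l1, hl1, hmin⟩ := Finset.exists_min_image (Finset.univ.erase i)
    (fun l => μ.real (F l ⁻¹' {c l})) ⟨l0, Finset.mem_erase.2 ⟨hl0, Finset.mem_univ _⟩⟩
  have hl1' : l1 ≠ i := (Finset.mem_erase.1 hl1).1
  set σ0 := μ.real (F l1 ⁻¹' {c l1}) with hσ0
  have hCσ : μ.real C ≤ σ0 := measureReal_mono (fun x hx => hx l1 hl1')
  have hσ0pos : 0 < σ0 := lt_of_lt_of_le hc0 hCσ
  have hσ0S : σ0 ∈ Scales μ F i := ⟨hσ0pos, l1, hl1', c l1, rfl⟩
  have hgood : ∀ l, l ≠ i → ∃ v, c l ≤ v ∧ σ0 ≤ μ.real (F l ⁻¹' {v}) :=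
    fun l hl => ⟨c l, le_rfl, hmin l (Finset.mem_erase.2 ⟨hl, Finset.mem_univ l⟩)⟩
  have hK1 : 1 ≤ K := by
    have h1 := hK l0 hl0
    have h2 : 0 < (range (F l0)).ncard := by
      rw [Set.ncard_pos (hF l0).fin]
      obtain ⟨x, _⟩ := nonempty_of_measureReal_ne_zero (ne_of_gt hc0)
      exact ⟨_, mem_range_self x⟩
    omega
  have hKr : (1 : ℝ) ≤ K := by exact_mod_cast hK1
  have hnr : (2 : ℝ) ≤ n := by exact_mod_cast hcard
  have hn1 : (((n - 1 : ℕ)) : ℝ) ≤ n := by exact_mod_cast Nat.sub_le n 1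
  have hQ1 : (1 : ℝ) ≤ 2 * n * K := by nlinarith
  have hQ : 2 * (((n - 1 : ℕ) : ℝ) * (K : ℝ)) ≤ 2 * n * K := by nlinarith
  have hN : ({τ ∈ Scales μ F i | τ < σ0}).ncard ≤ (n - 1) * K :=
    (Set.ncard_le_ncard (sep_subset _ _) (scales_finite hF i)).trans (scales_ncard hF i hK)
  obtain ⟨τ, hτ, hτgood, hτle⟩ := exists_avail hF i hK c hQ1 hQ _ σ0 hσ0S hgood hN
  have hpow1 : (1 : ℝ) ≤ (2 * n * K : ℝ) ^ ((n - 1) * K) := one_le_pow₀ hQ1
  have hR1 : (1 : ℝ) ≤ 2 * (n + 1) * (2 * n * K : ℝ) ^ ((n - 1) * K) := by nlinarith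
  have hbud : bud ι (1/2) τ * (2 * (n + 1) * (2 * n * K : ℝ) ^ ((n - 1) * K)) =
      τ * (2 * n * K : ℝ) ^ ((n - 1) * K) := by
    unfold bud
    rw [← hn]
    field_simp
  obtain ⟨A, hA, hval⟩ := exists_menu_piece hs (by norm_num : (0 : ℝ) < 1 / 2) hF hτ
    (cell_measurable hF i c) (cell_subset_reg hτgood) hc0 hR1
    (by rw [hbud]; exact hCσ.trans hτle)
  refine ⟨A, hA, ?_⟩
  have hprod : ((∏ l ∈ Finset.univ.erase i, (range (F l)).ncard : ℕ) : ℝ) ≤ (K : ℝ) ^ (n - 1) := by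
    have : (∏ l ∈ Finset.univ.erase i, (range (F l)).ncard : ℕ) ≤ K ^ (n - 1) := by
      calc (∏ l ∈ Finset.univ.erase i, (range (F l)).ncard : ℕ)
          ≤ ∏ l ∈ Finset.univ.erase i, K :=
            Finset.prod_le_prod' (fun l hl => hK l (Finset.mem_erase.1 hl).1)
        _ = K ^ (n - 1) := by
            rw [Finset.prod_const, Finset.card_erase_of_mem (Finset.mem_univ i), Finset.card_univ]
    exact_mod_cast this
  have hC0 : 0 ≤ ∫ x in C, F i x ∂μ := integral_nonneg (fun x => (hF i).nonneg x)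
  calc ∫ x, F i x ∂μ ≤ _ := hc
    _ ≤ (K : ℝ) ^ (n - 1) * ∫ x in C, F i x ∂μ := mul_le_mul_of_nonneg_right hprod hC0
    _ ≤ (K : ℝ) ^ (n - 1) *
        (2 * (n + 1) * (2 * n * K : ℝ) ^ ((n - 1) * K) * ∫ x in A, F i x ∂μ) :=
        mul_le_mul_of_nonneg_left hval (by positivity)
    _ = Rconst n K * ∫ x in A, F i x ∂μ := by
        unfold Rconst; ring

/-- The sharper guarantee of the menus for two agents. -/
theorem guarantee_two (hs : Splits μ) {F : ι → Ω → ℝ} (hF : ∀ i, Simple (F i)) {i j : ι}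
    (hij : i ≠ j) (hcard : Fintype.card ι = 2) (hpos : 0 < ∫ x, F i x ∂μ) :
    ∃ A ∈ Menu μ 1 F i,
      ∫ x, F i x ∂μ ≤ 3 * ((range (F j)).ncard : ℝ) * ∫ x in A, F i x ∂μ := by
  classical
  obtain ⟨c, hc0, hc⟩ := exists_cell hF i hpos
  set C := Cell F i c with hC
  have honly : ∀ l, l ≠ i → l = j := by
    intro l hl
    by_contra hlj
    have h1 : ({i, j, l} : Finset ι).card ≤ 2 := hcard ▸ Finset.card_le_univ _
    have h2 : ({i, j, l} : Finset ι).card = 3 := by
      rw [Finset.card_insert_of_notMem, Finset.card_insert_of_notMem, Finset.card_singleton]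
      · simp only [Finset.mem_singleton]; exact fun h => hlj h.symm
      · simp only [Finset.mem_insert, Finset.mem_singleton, not_or]
        exact ⟨hij, fun h => hl h.symm⟩
    omega
  have herase : (Finset.univ.erase i : Finset ι) = {j} := by
    ext l
    simp only [Finset.mem_erase, Finset.mem_univ, and_true, Finset.mem_singleton]
    exact ⟨honly l, fun h => by rw [h]; exact hij.symm⟩
  set σ0 := μ.real (F j ⁻¹' {c j}) with hσ0
  have hCσ : μ.real C ≤ σ0 := measureReal_mono (fun x hx => hx j hij.symm)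
  have hσ0pos : 0 < σ0 := lt_of_lt_of_le hc0 hCσ
  have hgood : ∀ l, l ≠ i → ∃ v, c l ≤ v ∧ σ0 ≤ μ.real (F l ⁻¹' {v}) := by
    intro l hl
    obtain rfl := honly l hl
    exact ⟨c l, le_rfl, le_rfl⟩
  have hav : Avail μ 1 F i σ0 := by
    refine ⟨hσ0pos, ⟨j, hij.symm, c j, rfl⟩, ?_⟩
    intro l hl
    obtain rfl := honly l hl
    obtain ⟨t, ht, _⟩ := exists_topLevel (hF l) hσ0pos (le_refl σ0)
    refine ⟨t, ht, ?_⟩
    have : F l ⁻¹' {t} ∩ Reg μ F i σ0 = F l ⁻¹' {t} := by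
      rw [inter_eq_left]
      intro x hx k hk
      obtain rfl := honly k hk
      exact ⟨t, le_of_eq hx, ht.1⟩
    rw [this, one_mul]
    exact ht.1
  have hbud : bud ι 1 σ0 * 3 = σ0 := by
    unfold bud
    rw [hcard]; push_cast; ring
  obtain ⟨A, hA, hval⟩ := exists_menu_piece hs one_pos hF hav
    (cell_measurable hF i c) (cell_subset_reg hgood) hc0 (by norm_num : (1 : ℝ) ≤ 3)
    (by rw [hbud]; exact hCσ)
  refine ⟨A, hA, ?_⟩
  rw [herase, Finset.prod_singleton] at hc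
  calc ∫ x, F i x ∂μ ≤ _ := hc
    _ ≤ ((range (F j)).ncard : ℝ) * (3 * ∫ x in A, F i x ∂μ) :=
        mul_le_mul_of_nonneg_left hval (by positivity)
    _ = _ := by ring

end Pool.Agent.H46.Cake
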