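import Pool.Agent.H46.Cake.Alloc

/-!
# Best options, and the value guaranteed by the menus
-/

set_option linter.unusedSectionVars false

namespace Pool.Agent.H46.Cake

open MeasureTheory Set

variable {Ω : Type*} [MeasurableSpace Ω] {μ : Measure Ω} [IsFiniteMeasure μ]
variable {ι : Type*} [Fintype ι] [DecidableEq ι]

/-- The positive measures of the level sets of the other agents. -/
def Scales (μ : Measure Ω) (F : ι → Ω → ℝ) (i : ι) : Set ℝ :=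
  {σ | 0 < σ ∧ ∃ l, l ≠ i ∧ ∃ v, μ.real (F l ⁻¹' {v}) = σ}

theorem pos_mem_range {f : Ω → ℝ} {v : ℝ} (h : 0 < μ.real (f ⁻¹' {v})) : v ∈ range f := by
  obtain ⟨x, hx⟩ := nonempty_of_measureReal_ne_zero (ne_of_gt h)
  exact ⟨x, hx⟩

theorem scales_subset {F : ι → Ω → ℝ} (hF : ∀ i, Simple (F i)) (i : ι) :
    Scales μ F i ⊆ ((Finset.univ.erase i).biUnion
      (fun l => (hF l).fin.toFinset.image (fun v => μ.real (F l ⁻¹' {v}))) : Finset ℝ) := by
  rintro σ ⟨h0, l, hl, v, hv⟩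
  simp only [Finset.coe_biUnion, Finset.coe_erase, Finset.coe_univ, mem_sdiff, mem_univ,
    mem_singleton_iff, true_and, Finset.coe_image, Finite.coe_toFinset, mem_iUnion, mem_image,
    exists_prop]
  exact ⟨l, hl, v, pos_mem_range (by rw [hv]; exact h0), hv⟩

theorem scales_finite {F : ι → Ω → ℝ} (hF : ∀ i, Simple (F i)) (i : ι) :
    (Scales μ F i).Finite := (Finset.finite_toSet _).subset (scales_subset hF i)

theorem scales_ncard {F : ι → Ω → ℝ} (hF : ∀ i, Simple (F i)) (i : ι) {K : ℕ}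
    (hK : ∀ l, l ≠ i → (range (F l)).ncard ≤ K) :
    (Scales μ F i).ncard ≤ (Fintype.card ι - 1) * K := by
  calc (Scales μ F i).ncard ≤ _ := Set.ncard_le_ncard (scales_subset hF i) (Finset.finite_toSet _)
    _ = _ := Set.ncard_coe_finset _
    _ ≤ ∑ l ∈ Finset.univ.erase i, ((hF l).fin.toFinset.image
          (fun v => μ.real (F l ⁻¹' {v}))).card := Finset.card_biUnion_le
    _ ≤ ∑ l ∈ Finset.univ.erase i, K := by
        refine Finset.sum_le_sum (fun l hl => ?_)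
        refine Finset.card_image_le.trans ?_
        rw [← Set.ncard_eq_toFinset_card _ (hF l).fin]
        exact hK l (Finset.mem_erase.1 hl).1
    _ = (Fintype.card ι - 1) * K := by
        rw [Finset.sum_const, smul_eq_mul, Finset.card_erase_of_mem (Finset.mem_univ i),
          Finset.card_univ]

theorem avail_finite {ρ : ℝ} {F : ι → Ω → ℝ} (hF : ∀ i, Simple (F i)) (i : ι) :
    {σ | Avail μ ρ F i σ}.Finite :=
  (scales_finite hF i).subset (fun _ hσ => ⟨hσ.1, hσ.2.1⟩)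

theorem bud_le_reg {ρ : ℝ} (hρ : 0 < ρ) {F : ι → Ω → ℝ} {i : ι} {σ : ℝ}
    (h : Avail μ ρ F i σ) : bud ι ρ σ ≤ μ.real (Reg μ F i σ) := by
  obtain ⟨h0, ⟨l, hl, _⟩, h2⟩ := h
  obtain ⟨t, _, ht⟩ := h2 l hl
  have h3 : μ.real (F l ⁻¹' {t} ∩ Reg μ F i σ) ≤ μ.real (Reg μ F i σ) :=
    measureReal_mono inter_subset_right
  have h4 : bud ι ρ σ ≤ ρ * σ := by
    rw [← bud_mul (ι := ι)]
    have := bud_pos (ι := ι) hρ h0
    have h5 : (0 : ℝ) ≤ Fintype.card ι := by positivity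
    nlinarith
  linarith

/-- The best scale of an agent. -/
theorem exists_best (hs : Splits μ) {ρ : ℝ} (hρ : 0 < ρ) {F : ι → Ω → ℝ}
    (hF : ∀ i, Simple (F i)) (i : ι) (hne : ∃ σ, Avail μ ρ F i σ) :
    ∃ σ θ, Avail μ ρ F i σ ∧ Thr μ (F i) (Reg μ F i σ) (bud ι ρ σ) θ ∧
      ∀ A, TopSet μ (F i) (Reg μ F i σ) (bud ι ρ σ) θ A →
        A ∈ Menu μ ρ F i ∧ ∀ A' ∈ Menu μ ρ F i, ∫ x in A', F i x ∂μ ≤ ∫ x in A, F i x ∂μ := by
  classical
  have hex : ∀ σ, ∃ θB : ℝ × Set Ω, Avail μ ρ F i σ →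
      Thr μ (F i) (Reg μ F i σ) (bud ι ρ σ) θB.1 ∧
        TopSet μ (F i) (Reg μ F i σ) (bud ι ρ σ) θB.1 θB.2 := by
    intro σ
    by_cases h : Avail μ ρ F i σ
    · obtain ⟨θ, hθ⟩ := exists_thr μ (hF i) (bud_pos (ι := ι) hρ h.1) (bud_le_reg hρ h)
      obtain ⟨B, hB⟩ := exists_topSet μ hs (hF i) (reg_measurable hF i σ) hθ
      exact ⟨(θ, B), fun _ => ⟨hθ, hB⟩⟩
    · exact ⟨(0, ∅), fun h' => absurd h' h⟩
  choose θB hθB using hex
  obtain ⟨σ, hσ, hmax⟩ := Set.exists_max_image {σ | Avail μ ρ F i σ}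
    (fun σ => ∫ x in (θB σ).2, F i x ∂μ) (avail_finite hF i) hne
  refine ⟨σ, (θB σ).1, hσ, (hθB σ hσ).1, ?_⟩
  intro A hA
  refine ⟨⟨hA.1, σ, hσ, fun x hx => (hA.2.2.1 hx).1, hA.2.2.2.le⟩, ?_⟩
  rintro A' ⟨hm, σ', hσ', hsub, hle⟩
  have h1 := TopSet.optimal μ (hF i) (hθB σ' hσ').1.1 (hθB σ' hσ').2 hm hsub hle
  have h2 := hmax σ' hσ'
  have h3 := TopSet.optimal μ (hF i) (hθB σ hσ).1.1 hA (hθB σ hσ).2.1
    (fun x hx => ((hθB σ hσ).2.2.2.1 hx).1) (hθB σ hσ).2.2.2.2.le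
  exact h1.trans (h2.trans h3)

/-- Conflict-free optimal choices from the menus. -/
theorem exists_choice (hs : Splits μ) {ρ : ℝ} (hρ : 0 < ρ) {F : ι → Ω → ℝ}
    (hF : ∀ i, Simple (F i)) (hne : ∀ i, ∃ σ, Avail μ ρ F i σ) :
    ∃ A : ι → Set Ω, (∀ i j, i ≠ j → Disjoint (A i) (A j)) ∧
      ∀ i, A i ∈ Menu μ ρ F i ∧ ∀ A' ∈ Menu μ ρ F i, ∫ x in A', F i x ∂μ ≤ ∫ x in A i, F i x ∂μ := by
  choose σ θ h1 h2 h3 using fun i => exists_best hs hρ hF i (hne i)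
  obtain ⟨A, hA, hd⟩ := exists_alloc hs hρ hF h1 h2 Finset.univ
  exact ⟨A, fun i j hij => hd i (Finset.mem_univ i) j (Finset.mem_univ j) hij,
    fun i => h3 i (A i) (hA i (Finset.mem_univ i))⟩

theorem reg_congr {F G : ι → Ω → ℝ} {i : ι} (h : ∀ l, l ≠ i → F l = G l) (σ : ℝ) :
    Reg μ F i σ = Reg μ G i σ := by
  ext x
  unfold Reg
  simp only [mem_ofPred_eq]
  constructor
  · intro hx l hl
    rw [← h l hl]; exact hx l hl
  · intro hx l hl
    rw [h l hl]; exact hx l hl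

theorem menu_subset {ρ : ℝ} {F G : ι → Ω → ℝ} {i : ι} (h : ∀ l, l ≠ i → F l = G l) :
    Menu μ ρ F i ⊆ Menu μ ρ G i := by
  rintro A ⟨hm, σ, ⟨h0, ⟨l, hl, hv⟩, h2⟩, hsub, hle⟩
  refine ⟨hm, σ, ⟨h0, ⟨l, hl, ?_⟩, ?_⟩, ?_, hle⟩
  · rw [← h l hl]; exact hv
  · intro k hk
    rw [← h k hk, ← reg_congr h]
    exact h2 k hk
  · rw [← reg_congr h]; exact hsub

/-- Top pieces of a subset of the region belong to the menu. -/
theorem exists_menu_piece (hs : Splits μ) {ρ : ℝ} (hρ : 0 < ρ) {F : ι → Ω → ℝ}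
    (hF : ∀ i, Simple (F i)) {i : ι} {σ : ℝ} (hσ : Avail μ ρ F i σ) {C : Set Ω}
    (hC : MeasurableSet C) (hCR : C ⊆ Reg μ F i σ) (hpos : 0 < μ.real C) {R : ℝ} (hR : 1 ≤ R)
    (hsR : μ.real C ≤ bud ι ρ σ * R) :
    ∃ A ∈ Menu μ ρ F i, ∫ x in C, F i x ∂μ ≤ R * ∫ x in A, F i x ∂μ := by
  have hb := bud_pos (ι := ι) hρ hσ.1
  set a := min (bud ι ρ σ) (μ.real C) with ha
  have ha0 : 0 < a := lt_min hb hpos
  obtain ⟨θ, hθ⟩ := exists_thr μ (hF i) ha0 (min_le_right _ _ : a ≤ μ.real C)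
  obtain ⟨A, hA⟩ := exists_topSet μ hs (hF i) hC hθ
  have hAC : A ⊆ C := fun x hx => (hA.2.2.1 hx).1
  refine ⟨A, ⟨hA.1, σ, hσ, hAC.trans hCR, ?_⟩, ?_⟩
  · rw [hA.2.2.2]; exact min_le_left _ _
  · have havg := TopSet.average μ (hF i) hC hA
    have hsa : μ.real C ≤ a * R := by
      rcases min_choice (bud ι ρ σ) (μ.real C) with h | h
      · rw [ha, h]; exact hsR
      · rw [ha, h]
        nlinarith
    have hnonneg : 0 ≤ ∫ x in A, F i x ∂μ := integral_nonneg (fun x => (hF i).nonneg x)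
    have h1 : a * ∫ x in C, F i x ∂μ ≤ a * (R * ∫ x in A, F i x ∂μ) := by
      calc a * ∫ x in C, F i x ∂μ ≤ μ.real C * ∫ x in A, F i x ∂μ := havg
        _ ≤ (a * R) * ∫ x in A, F i x ∂μ := mul_le_mul_of_nonneg_right hsa hnonneg
        _ = _ := by ring
    exact le_of_mul_le_mul_left h1 ha0

theorem exists_topLevel {f : Ω → ℝ} (hf : Simple f) {σ v : ℝ} (hσ : 0 < σ)
    (hv : σ ≤ μ.real (f ⁻¹' {v})) : ∃ t, IsTopLevel μ f σ t ∧ v ≤ t := by
  have hfin : {v | σ ≤ μ.real (f ⁻¹' {v})}.Finite :=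
    hf.fin.subset (fun w hw => pos_mem_range (lt_of_lt_of_le hσ hw))
  obtain ⟨t, ht, hmax⟩ := Set.exists_max_image _ id hfin ⟨v, hv⟩
  exact ⟨t, ⟨ht, fun w hw => hmax w hw⟩, hmax v hv⟩

/-- A scale with a gap below it is available. -/
theorem avail_of_gap {F : ι → Ω → ℝ} (hF : ∀ i, Simple (F i)) {K : ℕ}
    (i : ι) (hK : ∀ l, l ≠ i → (range (F l)).ncard ≤ K) (c : ι → ℝ) {Q : ℝ} (hQ1 : 1 ≤ Q)
    (hQ : 2 * ((Fintype.card ι - 1 : ℕ) * (K : ℝ)) ≤ Q) (σ : ℝ) (hσ : σ ∈ Scales μ F i)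
    (hgood : ∀ l, l ≠ i → ∃ v, c l ≤ v ∧ σ ≤ μ.real (F l ⁻¹' {v}))
    (hgap : ∀ τ ∈ Scales μ F i, τ < σ → τ * Q ≤ σ) : Avail μ (1/2) F i σ := by
  classical
  have hQ0 : 0 < Q := by linarith
  have hcompl : μ.real (Reg μ F i σ)ᶜ ≤ 1 / 2 * σ := by
    have hsub : (Reg μ F i σ)ᶜ ⊆ ⋃ l ∈ (Finset.univ.erase i : Finset ι),
        ⋃ v ∈ (hF l).fin.toFinset.filter (fun v => μ.real (F l ⁻¹' {v}) < σ), F l ⁻¹' {v} := by
      intro x hx
      have hx' : ¬ ∀ l, l ≠ i → ∃ v, F l x ≤ v ∧ σ ≤ μ.real (F l ⁻¹' {v}) := hx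
      push Not at hx'
      obtain ⟨l, hl, hv⟩ := hx'
      simp only [mem_iUnion, exists_prop]
      refine ⟨l, Finset.mem_erase.2 ⟨hl, Finset.mem_univ l⟩, F l x, ?_, rfl⟩
      rw [Finset.mem_filter, Set.Finite.mem_toFinset]
      exact ⟨mem_range_self x, hv _ le_rfl⟩
    have hterm : ∀ l ∈ (Finset.univ.erase i : Finset ι),
        μ.real (⋃ v ∈ (hF l).fin.toFinset.filter (fun v => μ.real (F l ⁻¹' {v}) < σ),
          F l ⁻¹' {v}) ≤ K * (σ / Q) := by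
      intro l hl
      have hl' : l ≠ i := (Finset.mem_erase.1 hl).1
      have h1 := measureReal_biUnion_finset_le (μ := μ)
        ((hF l).fin.toFinset.filter (fun v => μ.real (F l ⁻¹' {v}) < σ)) (fun v => F l ⁻¹' {v})
      have h2 : ∀ v ∈ (hF l).fin.toFinset.filter (fun v => μ.real (F l ⁻¹' {v}) < σ),
          μ.real (F l ⁻¹' {v}) ≤ σ / Q := by
        intro v hv
        have hv' := (Finset.mem_filter.1 hv).2
        rcases (measureReal_nonneg (μ := μ) (s := F l ⁻¹' {v})).eq_or_lt with h | h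
        · rw [← h]
          have := hσ.1
          positivity
        · rw [le_div_iff₀ hQ0]
          exact hgap _ ⟨h, l, hl', v, rfl⟩ hv'
      have h3 := Finset.sum_le_card_nsmul _ _ _ h2
      rw [nsmul_eq_mul] at h3
      have h4 : (((hF l).fin.toFinset.filter
          (fun v => μ.real (F l ⁻¹' {v}) < σ)).card : ℝ) ≤ K := by
        have h5 : ((hF l).fin.toFinset.filter
          (fun v => μ.real (F l ⁻¹' {v}) < σ)).card ≤ K := by
          refine (Finset.card_filter_le _ _).trans ?_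
          rw [← Set.ncard_eq_toFinset_card _ (hF l).fin]
          exact hK l hl'
        exact_mod_cast h5
      have h6 : 0 ≤ σ / Q := by
        have := hσ.1
        positivity
      exact h1.trans (h3.trans (mul_le_mul_of_nonneg_right h4 h6))
    have h7 := measureReal_biUnion_finset_le (μ := μ) (Finset.univ.erase i : Finset ι)
      (fun l => ⋃ v ∈ (hF l).fin.toFinset.filter (fun v => μ.real (F l ⁻¹' {v}) < σ),
          F l ⁻¹' {v})
    have h8 := Finset.sum_le_card_nsmul _ _ _ hterm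
    rw [nsmul_eq_mul, Finset.card_erase_of_mem (Finset.mem_univ i), Finset.card_univ] at h8
    have h9 : μ.real (Reg μ F i σ)ᶜ ≤ ((Fintype.card ι - 1 : ℕ) : ℝ) * (K * (σ / Q)) :=
      (measureReal_mono hsub (measure_ne_top μ _)).trans (h7.trans h8)
    refine h9.trans ?_
    have hσ0 := hσ.1
    rw [show ((Fintype.card ι - 1 : ℕ) : ℝ) * (K * (σ / Q)) =
      (((Fintype.card ι - 1 : ℕ) : ℝ) * K * σ) / Q by ring, div_le_iff₀ hQ0]
    nlinarith
  refine ⟨hσ.1, hσ.2, ?_⟩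
  intro l hl
  obtain ⟨v, _, hv'⟩ := hgood l hl
  obtain ⟨t, ht, _⟩ := exists_topLevel (hF l) hσ.1 hv'
  refine ⟨t, ht, ?_⟩
  have h1 := measureReal_inter_add_sdiff (μ := μ) (s := F l ⁻¹' {t}) (t := Reg μ F i σ)
    (reg_measurable hF i σ)
  have h2 : μ.real (F l ⁻¹' {t} \ Reg μ F i σ) ≤ μ.real (Reg μ F i σ)ᶜ :=
    measureReal_mono (fun x hx => hx.2)
  have h3 := ht.1
  linarith

/-- The gap argument: below each scale at which the cell `c` is in the region there is an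
available one, not much smaller. -/
theorem exists_avail {F : ι → Ω → ℝ} (hF : ∀ i, Simple (F i)) {K : ℕ}
    (i : ι) (hK : ∀ l, l ≠ i → (range (F l)).ncard ≤ K) (c : ι → ℝ) {Q : ℝ} (hQ1 : 1 ≤ Q)
    (hQ : 2 * ((Fintype.card ι - 1 : ℕ) * (K : ℝ)) ≤ Q) (N : ℕ) :
    ∀ σ, σ ∈ Scales μ F i → (∀ l, l ≠ i → ∃ v, c l ≤ v ∧ σ ≤ μ.real (F l ⁻¹' {v})) →
      ({τ ∈ Scales μ F i | τ < σ}).ncard ≤ N →
      ∃ τ, Avail μ (1/2) F i τ ∧ (∀ l, l ≠ i → ∃ v, c l ≤ v ∧ τ ≤ μ.real (F l ⁻¹' {v})) ∧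
        σ ≤ τ * Q ^ N := by
  classical
  induction N with
  | zero =>
    intro σ hσ hgood hN
    have hemp : {τ ∈ Scales μ F i | τ < σ} = ∅ := by
      rw [← Set.ncard_eq_zero ((scales_finite hF i).subset (sep_subset _ _))]
      omega
    refine ⟨σ, ?_, hgood, by simp⟩
    exact avail_of_gap hF i hK c hQ1 hQ σ hσ hgood (fun τ hτ hlt => by
      have : τ ∈ {τ ∈ Scales μ F i | τ < σ} := ⟨hτ, hlt⟩
      rw [hemp] at this
      exact absurd this (notMem_empty _))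
  | succ N ih =>
    intro σ hσ hgood hN
    by_cases hgap : ∀ τ ∈ Scales μ F i, τ < σ → τ * Q ≤ σ
    · refine ⟨σ, avail_of_gap hF i hK c hQ1 hQ σ hσ hgood hgap, hgood, ?_⟩
      have h1 : (1 : ℝ) ≤ Q ^ (N + 1) := one_le_pow₀ hQ1
      have h2 : 0 < σ := hσ.1
      nlinarith
    · push Not at hgap
      obtain ⟨τ, hτ, hlt, hQτ⟩ := hgap
      have hgood' : ∀ l, l ≠ i → ∃ v, c l ≤ v ∧ τ ≤ μ.real (F l ⁻¹' {v}) := by
        intro l hl
        obtain ⟨v, hv, hv'⟩ := hgood l hl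
        exact ⟨v, hv, hlt.le.trans hv'⟩
      have hcard : ({τ' ∈ Scales μ F i | τ' < τ}).ncard ≤ N := by
        have : ({τ' ∈ Scales μ F i | τ' < τ}).ncard < ({τ' ∈ Scales μ F i | τ' < σ}).ncard := by
          refine Set.ncard_lt_ncard ?_ ((scales_finite hF i).subset (sep_subset _ _))
          have hss : {τ' ∈ Scales μ F i | τ' < τ} ⊆ {τ' ∈ Scales μ F i | τ' < σ} :=
            fun x hx => ⟨hx.1, hx.2.trans hlt⟩
          rw [Set.ssubset_iff_of_subset hss]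
          exact ⟨τ, ⟨hτ, hlt⟩, fun h => lt_irrefl _ h.2⟩
        omega
      obtain ⟨τ', h1, h2, h3⟩ := ih τ hτ hgood' hcard
      refine ⟨τ', h1, h2, ?_⟩
      calc σ ≤ τ * Q := hQτ.le
        _ ≤ (τ' * Q ^ N) * Q := mul_le_mul_of_nonneg_right h3 (by linarith)
        _ = _ := by ring

end Pool.Agent.H46.Cake
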